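import Mathlib
import Pool.Agent.K9h5.T.Hen

/-!
# Functions all whose orders are divisible by `n`: the norm
-/

set_option autoImplicit false
set_option linter.all false

namespace Pool.Agent.K9h5.G

open Polynomial Finset Pool.Agent.K9h5 Pool.Agent.K9h5.T

section

variable {K : Type} [Field K]

/-- all the orders along arcs are divisible by `n` -/
def ArcDiv (n : ℕ) (a b : K) (z : QA K a b) : Prop :=
  ∀ (X' Y' : PS K) (h : Y' ^ 2 = X' ^ 3 + PowerSeries.C a * X' + PowerSeries.C b) (m : ℕ),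
    (evQ PowerSeries.C a b X' Y' h z).order = m → n ∣ m

theorem two_nat (o o' : ℕ∞) (m : ℕ) (h : o + o' = (m : ℕ∞)) :
    ∃ k k' : ℕ, o = k ∧ o' = k' ∧ k + k' = m := by
  cases o with
  | top =>
    rw [top_add] at h
    exact absurd h.symm (ENat.coe_ne_top _)
  | coe k =>
    cases o' with
    | top =>
      rw [add_top] at h
      exact absurd h.symm (ENat.coe_ne_top _)
    | coe k' => exact ⟨k, k', rfl, rfl, by exact_mod_cast h⟩

theorem norm_mult [IsAlgClosed K] {a b : K} (hD : Pool.Agent.H901R3.MS.Disc a b) {n : ℕ}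
    (z : QA K a b) (hz : QuadraticAlgebra.norm z ≠ 0) (hA : ArcDiv n a b z) (x₀ : K) :
    n ∣ (QuadraticAlgebra.norm z).rootMultiplicity x₀ := by
  classical
  have h2 : (2 : K) ≠ 0 := by
    unfold Pool.Agent.H901R3.MS.Disc at hD
    exact left_ne_zero_of_mul hD
  by_cases hf : x₀ ^ 3 + a * x₀ + b = 0
  · -- ramified point
    obtain ⟨s, hs, h⟩ := arc_ram hD x₀ hf
    have h' : (-PowerSeries.X : PS K) ^ 2 = (PowerSeries.C x₀ + s) ^ 3 +
        PowerSeries.C a * (PowerSeries.C x₀ + s) + PowerSeries.C b := by rw [neg_sq]; exact h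
    have hNo := ord_eval (QuadraticAlgebra.norm z) hz x₀ s 2 (by exact_mod_cast hs) (by norm_num)
    rw [evQ_norm _ a b _ _ h h' z, PowerSeries.order_mul] at hNo
    obtain ⟨u, hu⟩ : ∃ u, u = z.re.eval₂ PowerSeries.C (PowerSeries.C x₀ + s) := ⟨_, rfl⟩
    obtain ⟨v, hv⟩ : ∃ v, v = z.im.eval₂ PowerSeries.C (PowerSeries.C x₀ + s) * PowerSeries.X :=
      ⟨_, rfl⟩
    have e1 : evQ PowerSeries.C a b (PowerSeries.C x₀ + s) PowerSeries.X h z = u + v := by
      rw [evQ_apply, hu, hv]
    have e2 : evQ PowerSeries.C a b (PowerSeries.C x₀ + s) (-PowerSeries.X) h' z = u + (-v) := by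
      rw [evQ_apply, hu, hv, mul_neg]
    have huo : u = 0 ∨ ∃ k : ℕ, u.order = ((k * 2 : ℕ) : ℕ∞) := by
      rw [hu]
      exact poly_order z.re x₀ s hs
    have hvo : v = 0 ∨ ∃ k : ℕ, v.order = ((k * 2 + 1 : ℕ) : ℕ∞) := by
      rcases poly_order z.im x₀ s hs with h3 | ⟨k, h3⟩
      · left; rw [hv, h3, zero_mul]
      · right
        refine ⟨k, ?_⟩
        rw [hv, PowerSeries.order_mul, PowerSeries.order_X, h3]
        push_cast
        rfl
    have heq := two_orders u v huo hvo
    rw [e1, e2, ← heq] at hNo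
    have h3 := half_order _ _ hNo
    rw [← e1] at h3
    exact hA _ _ h _ h3
  · obtain ⟨y₀, hy₀⟩ := IsAlgClosed.exists_pow_nat_eq (x₀ ^ 3 + a * x₀ + b) (n := 2) (by norm_num)
    have hy0 : y₀ ≠ 0 := by
      rintro rfl
      apply hf
      rw [← hy₀]
      ring
    obtain ⟨X', hX'⟩ : ∃ X' : PS K, X' = PowerSeries.C x₀ + PowerSeries.X := ⟨_, rfl⟩
    have hX0 : PowerSeries.constantCoeff X' = x₀ := by
      rw [hX', map_add, PowerSeries.constantCoeff_C, PowerSeries.constantCoeff_X, add_zero]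
    obtain ⟨g, hg⟩ : ∃ g : PS K, g = X' ^ 3 + PowerSeries.C a * X' + PowerSeries.C b := ⟨_, rfl⟩
    have hg0 : PowerSeries.constantCoeff g = x₀ ^ 3 + a * x₀ + b := by
      rw [hg, map_add, map_add, map_mul, map_pow, hX0, PowerSeries.constantCoeff_C,
        PowerSeries.constantCoeff_C]
    obtain ⟨Y', hY', hY0⟩ := hens (X ^ 2 - C g : (PS K)[X]) (monic_X_pow_sub_C _ (by norm_num)) y₀
      (by
        simp only [Polynomial.map_sub, Polynomial.map_pow, map_X, map_C, eval_sub, eval_pow, eval_X,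
          eval_C, hg0]
        rw [hy₀, sub_self]) (by
        simp only [Polynomial.map_sub, Polynomial.map_pow, map_X, map_C, derivative_sub,
          derivative_X_pow, derivative_C, sub_zero, eval_mul, eval_C, eval_pow, eval_X]
        norm_num
        exact ⟨h2, hy0⟩)
    have hYe : Y' ^ 2 = X' ^ 3 + PowerSeries.C a * X' + PowerSeries.C b := by
      simp only [eval_sub, eval_pow, eval_X, eval_C] at hY'
      rw [← hg]
      linear_combination hY'
    have hYe' : (-Y') ^ 2 = X' ^ 3 + PowerSeries.C a * X' + PowerSeries.C b := by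
      rw [neg_sq]; exact hYe
    have hNo : ((QuadraticAlgebra.norm z).eval₂ PowerSeries.C X').order =
        (((QuadraticAlgebra.norm z).rootMultiplicity x₀ * 1 : ℕ) : ℕ∞) := by
      rw [hX']
      exact ord_eval _ hz x₀ PowerSeries.X 1 (by rw [PowerSeries.order_X]; rfl) (by norm_num)
    rw [evQ_norm _ a b X' Y' hYe hYe' z, PowerSeries.order_mul, mul_one] at hNo
    obtain ⟨k, k', hk, hk', hkk⟩ := two_nat _ _ _ hNo
    rw [← hkk]
    exact Nat.dvd_add (hA _ _ hYe _ hk) (hA _ _ hYe' _ hk')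

/-- a polynomial all whose multiplicities are divisible by `n` is a power -/
theorem pow_of_mult [IsAlgClosed K] (p : K[X]) (hp : p ≠ 0) (n : ℕ)
    (h : ∀ x, n ∣ p.rootMultiplicity x) : ∃ (c : K) (q : K[X]), c ≠ 0 ∧ p = C c * q ^ n := by
  classical
  refine ⟨p.leadingCoeff, ∏ r ∈ p.roots.toFinset, (X - C r) ^ (p.rootMultiplicity r / n),
    leadingCoeff_ne_zero.2 hp, ?_⟩
  have h1 := (IsAlgClosed.splits p).eq_prod_roots
  rw [← prod_pow]
  conv_lhs => rw [h1]
  congr 1
  rw [Finset.prod_multiset_map_count]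
  refine prod_congr rfl fun r _ => ?_
  rw [← pow_mul, Nat.div_mul_cancel (h r), count_roots]

end

end Pool.Agent.K9h5.G
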