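import Mathlib
import Pool.Agent.K9h5.G.Arc
import Pool.Agent.K9h5.T.Twc

/-!
# The product of the values of a function at the three points of a line
-/

set_option autoImplicit false
set_option linter.all false

namespace Pool.Agent.K9h5.G

open Polynomial Finset Pool.Agent.K9h5 Pool.Agent.K9h5.T

/-- the cubic polynomial of the line `y = l x + v` -/
noncomputable def gL {L : Type} [CommRing L] (a b l v : L) : L[X] :=
  X ^ 3 + C a * X + C b - (C l * X + C v) ^ 2

theorem gL_map {L M : Type} [CommRing L] [CommRing M] (φ : L →+* M) (a b l v : L) :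
    (gL a b l v).map φ = gL (φ a) (φ b) (φ l) (φ v) := by
  unfold gL
  simp only [Polynomial.map_sub, Polynomial.map_add, Polynomial.map_mul, Polynomial.map_pow, map_X,
    map_C]

theorem gL_monic {L : Type} [CommRing L] (a b l v : L) : (gL a b l v).Monic := by
  nontriviality L
  unfold gL
  monicity!

theorem gL_deg {L : Type} [CommRing L] [Nontrivial L] (a b l v : L) :
    (gL a b l v).natDegree = 3 := by
  unfold gL
  compute_degree!

theorem gL_eval {L : Type} [CommRing L] (a b l v x : L) :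
    (gL a b l v).eval x = 0 ↔ (l * x + v) ^ 2 = x ^ 3 + a * x + b := by
  unfold gL
  simp only [eval_sub, eval_add, eval_mul, eval_pow, eval_X, eval_C]
  rw [sub_eq_zero]
  exact eq_comm

/-- a function restricted to the line -/
noncomputable def FL {K L : Type} [CommRing K] [CommRing L] (κ : K →+* L) {a b : K} (z : QA K a b)
    (l v : L) : L[X] := z.re.map κ + z.im.map κ * (C l * X + C v)

theorem FL_map {K L M : Type} [CommRing K] [CommRing L] [CommRing M] (κ : K →+* L) (φ : L →+* M)
    {a b : K} (z : QA K a b) (l v : L) :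
    (FL κ z l v).map φ = FL (φ.comp κ) z (φ l) (φ v) := by
  unfold FL
  simp only [Polynomial.map_add, Polynomial.map_mul, map_X, map_C, Polynomial.map_map]

/-- a bound for the degree -/
noncomputable def NN {K : Type} [CommRing K] {a b : K} (z : QA K a b) : ℕ :=
  z.re.natDegree + (z.im.natDegree + 1)

theorem FL_deg {K L : Type} [CommRing K] [CommRing L] (κ : K →+* L) {a b : K} (z : QA K a b)
    (l v : L) : (FL κ z l v).natDegree ≤ NN z := by
  unfold FL NN
  refine (natDegree_add_le _ _).trans (max_le ?_ ?_)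
  · exact (natDegree_map_le).trans (Nat.le_add_right _ _)
  · refine (natDegree_mul_le).trans ?_
    have h1 : (C l * X + C v : L[X]).natDegree ≤ 1 := natDegree_linear_le
    have h2 : (z.im.map κ).natDegree ≤ z.im.natDegree := natDegree_map_le
    omega

theorem FL_eval {K L : Type} [CommRing K] [CommRing L] (κ : K →+* L) {a b : K} (z : QA K a b)
    (l v x : L) (h : (l * x + v) ^ 2 = x ^ 3 + κ a * x + κ b) :
    (FL κ z l v).eval x = evQ κ a b x (l * x + v) h z := by
  unfold FL
  rw [evQ_apply]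
  simp only [eval_add, eval_mul, eval_map, eval_X, eval_C]

/-- the product of the values at the three points of a line -/
noncomputable def HL {K L : Type} [CommRing K] [CommRing L] (κ : K →+* L) {a b : K} (z : QA K a b)
    (l v : L) : L := resultant (gL (κ a) (κ b) l v) (FL κ z l v) 3 (NN z)

theorem HL_map {K L M : Type} [CommRing K] [CommRing L] [CommRing M] (κ : K →+* L) (φ : L →+* M)
    {a b : K} (z : QA K a b) (l v : L) :
    φ (HL κ z l v) = HL (φ.comp κ) z (φ l) (φ v) := by
  unfold HL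
  rw [← resultant_map_map, gL_map, FL_map]
  rfl

theorem res_mul {L : Type} [CommRing L] (f₁ f₂ g : L[X]) (m₁ m₂ N : ℕ) (h1 : f₁.natDegree = m₁)
    (h2 : f₂.natDegree = m₂) (hN : g.natDegree ≤ N) :
    resultant (f₁ * f₂) g (m₁ + m₂) N = resultant f₁ g m₁ N * resultant f₂ g m₂ N := by
  subst h1 h2
  exact resultant_mul_left f₁ f₂ g N hN

theorem res_lin {L : Type} [CommRing L] [Nontrivial L] (x₁ : L) (g₂ F : L[X]) (m N : ℕ)
    (h2 : g₂.natDegree = m) (hN : F.natDegree ≤ N) :
    resultant ((X - C x₁) * g₂) F (1 + m) N = F.eval x₁ * resultant g₂ F m N := by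
  rw [res_mul _ _ _ _ _ _ (natDegree_X_sub_C x₁) h2 hN, resultant_X_sub_C_left _ _ _ hN]

theorem res_two {L : Type} [CommRing L] [Nontrivial L] (x₂ x₃ : L) (F : L[X]) (N : ℕ)
    (hN : F.natDegree ≤ N) :
    resultant ((X - C x₂) * (X - C x₃)) F 2 N = F.eval x₂ * F.eval x₃ := by
  have h := res_lin x₂ (X - C x₃) F 1 N (natDegree_X_sub_C x₃) hN
  rw [resultant_X_sub_C_left _ _ _ hN] at h
  exact h

theorem HL_split {K L : Type} [Field K] [Field L] (κ : K →+* L) {a b : K} (z : QA K a b)
    (l v x₁ x₂ x₃ : L) (h : gL (κ a) (κ b) l v = (X - C x₁) * ((X - C x₂) * (X - C x₃))) :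
    HL κ z l v = (FL κ z l v).eval x₁ * ((FL κ z l v).eval x₂ * (FL κ z l v).eval x₃) := by
  unfold HL
  rw [h]
  have hd : ((X - C x₂) * (X - C x₃) : L[X]).natDegree = 2 := by
    rw [natDegree_mul (X_sub_C_ne_zero _) (X_sub_C_ne_zero _), natDegree_X_sub_C, natDegree_X_sub_C]
  have h1 := res_lin x₁ ((X - C x₂) * (X - C x₃)) (FL κ z l v) 2 (NN z) hd (FL_deg κ z l v)
  rw [res_two _ _ _ _ (FL_deg κ z l v)] at h1
  exact h1

/-- the universal product, a polynomial in `v` and `l` -/
noncomputable def Hu {K : Type} [Field K] {a b : K} (z : QA K a b) : K[X][X] :=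
  HL ((C : K[X] →+* K[X][X]).comp (C : K →+* K[X])) z (C X) X

theorem HL_univ {K L : Type} [Field K] [CommRing L] (κ : K →+* L) {a b : K} (z : QA K a b)
    (l v : L) : HL κ z l v = (Hu z).eval₂ (eval₂RingHom κ l) v := by
  have h := HL_map ((C : K[X] →+* K[X][X]).comp (C : K →+* K[X]))
    (eval₂RingHom (eval₂RingHom κ l) v) z (C X) X
  have h1 : (eval₂RingHom (eval₂RingHom κ l) v).comp
      ((C : K[X] →+* K[X][X]).comp (C : K →+* K[X])) = κ := by
    ext x
    simp
  rw [h1] at h
  have h2 : (eval₂RingHom (eval₂RingHom κ l) v) (C X) = l := by simp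
  have h3 : (eval₂RingHom (eval₂RingHom κ l) v) X = v := by simp
  rw [h2, h3] at h
  rw [← h]
  rfl

section

variable {K : Type} [Field K] [IsAlgClosed K] {a b : K}

theorem exists_split3 (l v : K) : ∃ x₁ x₂ x₃ : K,
    gL a b l v = (X - C x₁) * ((X - C x₂) * (X - C x₃)) := by
  obtain ⟨r, hr⟩ := exists_roots (gL a b l v) (gL_monic _ _ _ _) (gL_deg a b l v)
  refine ⟨r 0, r 1, r 2, ?_⟩
  rw [hr, Fin.prod_univ_three, mul_assoc]

/-- **The order of the product along a pencil of parallel lines.** -/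
theorem D_mult {n : ℕ} (z : QA K a b) (hA : ArcDiv n a b z) (l v x₀ : K)
    (h0 : (gL a b l v).eval x₀ = 0) (h1 : (derivative (gL a b l v)).eval x₀ ≠ 0)
    (h2 : ∀ x, (gL a b l v).eval x = 0 → x ≠ x₀ → (FL (RingHom.id K) z l v).eval x ≠ 0) :
    n ∣ ((Hu z).map (evalRingHom l)).rootMultiplicity v := by
  classical
  obtain ⟨P, hP⟩ : ∃ P, P = (Hu z).map (evalRingHom l) := ⟨_, rfl⟩
  rw [← hP]
  by_cases hP0 : P = 0
  · rw [hP0, rootMultiplicity_zero]
    exact dvd_zero n
  obtain ⟨vt, hvt⟩ : ∃ vt : PS K, vt = PowerSeries.C v + PowerSeries.X := ⟨_, rfl⟩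
  have hv0 : PowerSeries.constantCoeff vt = v := by
    rw [hvt, map_add, PowerSeries.constantCoeff_C, PowerSeries.constantCoeff_X, add_zero]
  obtain ⟨g, hg⟩ : ∃ g, g = gL (PowerSeries.C a) (PowerSeries.C b) (PowerSeries.C l) vt := ⟨_, rfl⟩
  have hgm : g.map PowerSeries.constantCoeff = gL a b l v := by
    rw [hg, gL_map, hv0]
    simp only [PowerSeries.constantCoeff_C]
  have hgmon : g.Monic := by rw [hg]; exact gL_monic _ _ _ _
  obtain ⟨x₁, hx₁, hx₁0⟩ := hens g hgmon x₀ (by rw [hgm]; exact h0) (by rw [hgm]; exact h1)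
  obtain ⟨g₂, hg₂⟩ := dvd_iff_isRoot.2 hx₁
  have hg₂m : g₂.Monic := by
    rw [hg₂] at hgmon
    exact (monic_X_sub_C x₁).of_mul_monic_left hgmon
  have hg₂d : g₂.natDegree = 2 := by
    have h3 : g.natDegree = 3 := by rw [hg]; exact gL_deg _ _ _ _
    rw [hg₂, (monic_X_sub_C x₁).natDegree_mul hg₂m, natDegree_X_sub_C] at h3
    omega
  -- the value
  have hres : HL PowerSeries.C z (PowerSeries.C l) vt =
      (FL PowerSeries.C z (PowerSeries.C l) vt).eval x₁ *
        resultant g₂ (FL PowerSeries.C z (PowerSeries.C l) vt) 2 (NN z) := by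
    unfold HL
    rw [← hg, hg₂]
    exact res_lin x₁ g₂ _ 2 (NN z) hg₂d (FL_deg _ z _ _)
  -- the second factor is a unit
  have hunit : (resultant g₂ (FL PowerSeries.C z (PowerSeries.C l) vt) 2 (NN z)).order = 0 := by
    apply PowerSeries.order_zero_of_unit
    rw [PowerSeries.isUnit_iff_constantCoeff, ← resultant_map_map, FL_map, hv0,
      PowerSeries.constantCoeff_C]
    have hcc : (PowerSeries.constantCoeff (R := K)).comp PowerSeries.C = RingHom.id K := by
      ext x
      simp
    rw [hcc]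
    obtain ⟨r, hr⟩ := exists_roots (g₂.map PowerSeries.constantCoeff) (hg₂m.map _)
      (n := 2) (by rw [hg₂m.natDegree_map]; exact hg₂d)
    have hgr : gL a b l v = (X - C x₀) * ((X - C (r 0)) * (X - C (r 1))) := by
      rw [← hgm, hg₂, Polynomial.map_mul, hr, Fin.prod_univ_two, Polynomial.map_sub, map_X, map_C,
        hx₁0]
    have hne : ∀ i, r i ≠ x₀ := by
      intro i hi
      apply h1
      rw [hgr]
      simp only [derivative_mul, derivative_sub, derivative_X, derivative_C, eval_add, eval_mul,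
        eval_sub, eval_X, eval_C, sub_zero, eval_one]
      fin_cases i
      · have hi' : r 0 = x₀ := hi
        rw [hi']
        ring
      · have hi' : r 1 = x₀ := hi
        rw [hi']
        ring
    rw [hr, Fin.prod_univ_two, res_two _ _ _ _ (FL_deg _ z _ _), isUnit_iff_ne_zero]
    refine mul_ne_zero (h2 _ ?_ (hne 0)) (h2 _ ?_ (hne 1))
    · rw [hgr]
      simp
    · rw [hgr]
      simp
  -- the order
  have hPe : P.eval₂ PowerSeries.C (PowerSeries.C v + PowerSeries.X) =
      HL PowerSeries.C z (PowerSeries.C l) vt := by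
    rw [HL_univ, hP, eval₂_map, hvt]
    congr 1
    apply Polynomial.ringHom_ext
    · intro x
      simp
    · simp
  have ho := ord_eval P hP0 v PowerSeries.X 1 (by rw [PowerSeries.order_X]; rfl) (by norm_num)
  have hx₁e : ((PowerSeries.C l) * x₁ + vt) ^ 2 = x₁ ^ 3 + PowerSeries.C a * x₁ +
      PowerSeries.C b := by
    rw [hg] at hx₁
    exact (gL_eval _ _ _ _ _).1 hx₁
  rw [hPe, hres, PowerSeries.order_mul, hunit, add_zero, mul_one,
    FL_eval PowerSeries.C z (PowerSeries.C l) vt x₁ hx₁e] at ho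
  exact hA _ _ hx₁e _ ho

end

end Pool.Agent.K9h5.G
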