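import Mathlib
import Pool.Agent.K9h5.G.Res

/-!
# The product of the values at the three points of a line is a power
-/

set_option autoImplicit false
set_option linter.all false

namespace Pool.Agent.K9h5.G

open Polynomial Finset Pool.Agent.K9h5 Pool.Agent.K9h5.T Pool.Agent.H901R3.MS

section

variable {K : Type} [Field K]

/-- the lines through the point `p` -/
noncomputable def sP (p : K × K) : K[X][X] := C (C p.2 - C p.1 * X) - X

theorem sP_deg (p : K × K) : (sP p).natDegree = 1 := by
  unfold sP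
  rw [← neg_sub, natDegree_neg, natDegree_X_sub_C]

theorem sP_ne (p : K × K) : sP p ≠ 0 := by
  intro h
  have := sP_deg p
  rw [h, natDegree_zero] at this
  omega

theorem sP_map (p : K × K) (l : K) : (sP p).map (evalRingHom l) = C (p.2 - l * p.1) - X := by
  unfold sP
  simp only [Polynomial.map_sub, map_C, map_X, coe_evalRingHom, eval_sub, eval_C, eval_mul, eval_X]
  rw [mul_comm l]

theorem eval_map2 (H : K[X][X]) (l : K) (u : K[X]) :
    (H.map (evalRingHom l)).eval (u.eval l) = (H.eval u).eval l := by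
  rw [eval_map, ← coe_evalRingHom, eval₂_at_apply]

theorem exists_out [Infinite K] (B : Finset K) : ∃ l : K, l ∉ B :=
  Infinite.exists_notMem_finset B

theorem exists_ne [Infinite K] (R : K[X]) (hR : R ≠ 0) : ∃ l, R.eval l ≠ 0 := by
  by_contra hc
  push Not at hc
  exact hR (Polynomial.funext fun x => by rw [hc x, eval_zero])

/-- **A polynomial in two variables which vanishes only on finitely many lines.** -/
theorem lines [IsAlgClosed K] (T : Finset (K × K)) : ∀ (N : ℕ) (H : K[X][X]), H.natDegree = N →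
    (∀ l v, (H.map (evalRingHom l)).eval v = 0 → ∃ p ∈ T, v = p.2 - l * p.1) →
    ∃ (c : K) (e : K × K → ℕ), c ≠ 0 ∧ H = C (C c) * ∏ p ∈ T, sP p ^ e p := by
  classical
  haveI : Infinite K := IsAlgClosed.instInfinite
  have hfin : ∀ (H : K[X][X]) (l : K), (∀ l v, (H.map (evalRingHom l)).eval v = 0 →
      ∃ p ∈ T, v = p.2 - l * p.1) → ∃ v, (H.map (evalRingHom l)).eval v ≠ 0 := by
    intro H l h
    obtain ⟨v, hv⟩ := exists_out (T.image fun p => p.2 - l * p.1)
    refine ⟨v, fun h0 => hv ?_⟩
    obtain ⟨p, hp, hpv⟩ := h l v h0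
    rw [mem_image]
    exact ⟨p, hp, hpv.symm⟩
  intro N
  induction N with
  | zero =>
    intro H hN h
    obtain ⟨q, rfl⟩ : ∃ q, H = C q := ⟨_, eq_C_of_natDegree_eq_zero hN⟩
    have hq : ∀ l, q.eval l ≠ 0 := by
      intro l h0
      obtain ⟨v, hv⟩ := hfin (C q) l h
      apply hv
      rw [map_C, eval_C, coe_evalRingHom]
      exact h0
    have hd : q.degree = 0 := by
      by_contra hd
      obtain ⟨l, hl⟩ := IsAlgClosed.exists_root q hd
      exact hq l hl
    obtain ⟨c, hc⟩ : ∃ c, q = C c := ⟨_, eq_C_of_degree_eq_zero hd⟩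
    refine ⟨c, fun _ => 0, ?_, ?_⟩
    · rintro rfl
      apply hq 0
      rw [hc, eval_C]
    · simp only [pow_zero, prod_const_one, mul_one]
      rw [hc]
  | succ N ih =>
    intro H hN h
    have hH0 : H ≠ 0 := by
      rintro rfl
      rw [natDegree_zero] at hN
      omega
    have hdvd : ∃ p ∈ T, sP p ∣ H := by
      by_contra hc
      push Not at hc
      have hr : ∀ p ∈ T, H.eval (C p.2 - C p.1 * X) ≠ 0 := by
        intro p hp h0
        apply hc p hp
        obtain ⟨q, hq⟩ := dvd_iff_isRoot.2 h0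
        refine ⟨-q, ?_⟩
        rw [hq]
        unfold sP
        ring
      have hR : H.leadingCoeff * ∏ p ∈ T, H.eval (C p.2 - C p.1 * X) ≠ 0 :=
        mul_ne_zero (leadingCoeff_ne_zero.2 hH0) (prod_ne_zero_iff.2 hr)
      obtain ⟨l, hl⟩ := exists_ne _ hR
      rw [eval_mul, eval_prod] at hl
      have h1 := left_ne_zero_of_mul hl
      have h2 := prod_ne_zero_iff.1 (right_ne_zero_of_mul hl)
      have h3 : (H.map (evalRingHom l)).natDegree = N + 1 := by
        rw [natDegree_map_of_leadingCoeff_ne_zero _ (by rw [coe_evalRingHom]; exact h1), hN]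
      obtain ⟨v, hv⟩ := IsAlgClosed.exists_root (H.map (evalRingHom l)) (by
        intro h4
        have h5 : (H.map (evalRingHom l)).natDegree = 0 := natDegree_eq_of_degree_eq_some h4
        omega)
      obtain ⟨p, hp, hpv⟩ := h l v hv
      apply h2 p hp
      rw [← eval_map2]
      have h5 : (C p.2 - C p.1 * X : K[X]).eval l = v := by
        rw [hpv]
        simp only [eval_sub, eval_C, eval_mul, eval_X]
        rw [mul_comm]
      rw [h5]
      exact hv
    obtain ⟨p, hp, H', rfl⟩ := hdvd
    have hH' : H' ≠ 0 := right_ne_zero_of_mul hH0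
    have hd : H'.natDegree = N := by
      rw [natDegree_mul (sP_ne p) hH', sP_deg] at hN
      omega
    obtain ⟨c, e, hc, he⟩ := ih H' hd (by
      intro l v h0
      apply h l v
      rw [Polynomial.map_mul, eval_mul, h0, mul_zero])
    refine ⟨c, fun q => e q + if q = p then 1 else 0, hc, ?_⟩
    conv_lhs => rw [he]
    have h6 : ∏ q ∈ T, sP q ^ (e q + if q = p then 1 else 0) =
        (∏ q ∈ T, sP q ^ e q) * sP p := by
      simp only [pow_add]
      rw [prod_mul_distrib]
      congr 1
      have h7 : ∀ q ∈ T, sP q ^ (if q = p then 1 else 0) = if q = p then sP p else 1 := by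
        intro q _
        split_ifs with hq
        · rw [hq, pow_one]
        · rw [pow_zero]
      rw [prod_congr rfl h7, prod_ite_eq' T p, if_pos hp]
    rw [h6]
    ring

/-- the multiplicities -/
theorem lines_mult [IsAlgClosed K] (T : Finset (K × K)) (c : K) (hc : c ≠ 0) (e : K × K → ℕ)
    (l : K) (hl : ∀ p ∈ T, ∀ q ∈ T, p ≠ q → p.2 - l * p.1 ≠ q.2 - l * q.1) (p : K × K)
    (hp : p ∈ T) :
    ((C (C c) * ∏ p ∈ T, sP p ^ e p : K[X][X]).map (evalRingHom l)).rootMultiplicity
      (p.2 - l * p.1) = e p := by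
  classical
  have h1 : (C (C c) * ∏ p ∈ T, sP p ^ e p : K[X][X]).map (evalRingHom l) =
      (C c * (-1) ^ e p * ∏ q ∈ T.erase p, (C (q.2 - l * q.1) - X) ^ e q) *
        (X - C (p.2 - l * p.1)) ^ e p := by
    rw [Polynomial.map_mul, map_C, coe_evalRingHom, eval_C, Polynomial.map_prod]
    simp only [Polynomial.map_pow, sP_map]
    rw [← mul_prod_erase T _ hp]
    have h2 : (C (p.2 - l * p.1) - X : K[X]) ^ e p = (-1) ^ e p * (X - C (p.2 - l * p.1)) ^ e p := by
      rw [← mul_pow]
      congr 1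
      ring
    rw [h2]
    ring
  have h3 : (C c * (-1) ^ e p * ∏ q ∈ T.erase p, (C (q.2 - l * q.1) - X) ^ e q : K[X]).eval
      (p.2 - l * p.1) ≠ 0 := by
    rw [eval_mul, eval_mul, eval_C, eval_pow, eval_prod]
    refine mul_ne_zero (mul_ne_zero hc (pow_ne_zero _ (by simp))) (prod_ne_zero_iff.2 ?_)
    intro q hq
    rw [eval_pow, eval_sub, eval_C, eval_X]
    apply pow_ne_zero
    rw [sub_ne_zero]
    exact hl q (mem_of_mem_erase hq) p hp (ne_of_mem_erase hq)
  have h4 : (C c * (-1) ^ e p * ∏ q ∈ T.erase p, (C (q.2 - l * q.1) - X) ^ e q : K[X]) ≠ 0 := by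
    intro h0
    rw [h0, eval_zero] at h3
    exact h3 rfl
  rw [h1, rootMultiplicity_mul_X_sub_C_pow h4, rootMultiplicity_eq_zero h3, zero_add]

/-- **The universal product is a power.** -/
theorem Hu_pow [IsAlgClosed K] {a b : K} (hD : Disc a b) {n : ℕ} (z : QA K a b) (hz : z ≠ 0)
    (hA : ArcDiv n a b z) : ∃ (c : K) (G : K[X][X]), c ≠ 0 ∧ Hu z = C (C c) * G ^ n := by
  classical
  haveI : Infinite K := IsAlgClosed.instInfinite
  have h2 : (2 : K) ≠ 0 := left_ne_zero_of_mul hD
  have hN := norm_ne_zero hz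
  -- the zeros
  obtain ⟨T, hT⟩ : ∃ T : Finset (K × K), ∀ x y, (x, y) ∈ T ↔ y ^ 2 = x ^ 3 + a * x + b ∧
      z.re.eval x + z.im.eval x * y = 0 := by
    refine ⟨((QuadraticAlgebra.norm z).roots.toFinset.biUnion fun x =>
      ((X ^ 2 - C (x ^ 3 + a * x + b) : K[X]).roots.toFinset).image fun y => (x, y)).filter
        fun p => p.2 ^ 2 = p.1 ^ 3 + a * p.1 + b ∧ z.re.eval p.1 + z.im.eval p.1 * p.2 = 0, ?_⟩
    intro x y
    rw [mem_filter]
    constructor
    · exact fun h => h.2
    · intro h
      refine ⟨?_, h⟩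
      rw [mem_biUnion]
      refine ⟨x, ?_, ?_⟩
      · rw [Multiset.mem_toFinset, mem_roots hN, IsRoot.def]
        have h3 : y ^ 2 = x ^ 3 + (RingHom.id K) a * x + (RingHom.id K) b := h.1
        have h4 : (-y) ^ 2 = x ^ 3 + (RingHom.id K) a * x + (RingHom.id K) b := by
          rw [neg_sq]; exact h3
        have h5 := evQ_norm (RingHom.id K) a b x y h3 h4 z
        rw [evQ_apply, eval₂_id, eval₂_id, eval₂_id, h.2, zero_mul] at h5
        exact h5
      · rw [mem_image]
        refine ⟨y, ?_, rfl⟩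
        rw [Multiset.mem_toFinset, mem_roots (X_pow_sub_C_ne_zero (by norm_num) _), IsRoot.def]
        simp only [eval_sub, eval_pow, eval_X, eval_C]
        rw [h.1, sub_self]
  have hFL : ∀ l v x, (FL (RingHom.id K) z l v).eval x =
      z.re.eval x + z.im.eval x * (l * x + v) := by
    intro l v x
    unfold FL
    simp only [Polynomial.map_id, eval_add, eval_mul, eval_X, eval_C]
  have hHu : ∀ l v, ((Hu z).map (evalRingHom l)).eval v = HL (RingHom.id K) z l v := by
    intro l v
    rw [HL_univ, eval_map]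
    rfl
  have hzero : ∀ l v, ((Hu z).map (evalRingHom l)).eval v = 0 → ∃ p ∈ T, v = p.2 - l * p.1 := by
    intro l v h0
    obtain ⟨x₁, x₂, x₃, hs⟩ := exists_split3 (a := a) (b := b) l v
    rw [hHu, HL_split (RingHom.id K) z l v x₁ x₂ x₃ hs] at h0
    have key : ∀ x, (gL a b l v).eval x = 0 → (FL (RingHom.id K) z l v).eval x = 0 →
        ∃ p ∈ T, v = p.2 - l * p.1 := by
      intro x hx hx'
      refine ⟨(x, l * x + v), (hT _ _).2 ⟨(gL_eval _ _ _ _ _).1 hx, ?_⟩, by ring⟩
      rw [← hFL]
      exact hx'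
    rcases mul_eq_zero.1 h0 with h | h
    · exact key x₁ (by rw [hs]; simp) h
    · rcases mul_eq_zero.1 h with h | h
      · exact key x₂ (by rw [hs]; simp) h
      · exact key x₃ (by rw [hs]; simp) h
  obtain ⟨c, e, hc, he⟩ := lines T _ (Hu z) rfl hzero
  -- a general slope
  obtain ⟨l, hl⟩ := exists_out (((T ×ˢ T).image fun pq => (pq.1.2 - pq.2.2) / (pq.1.1 - pq.2.1)) ∪
    T.image fun p => (3 * p.1 ^ 2 + a) / (2 * p.2))
  rw [mem_union, not_or, mem_image, mem_image] at hl
  obtain ⟨hl1, hl2⟩ := hl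
  have hl3 : ∀ p ∈ T, ∀ q ∈ T, p ≠ q → p.2 - l * p.1 ≠ q.2 - l * q.1 := by
    intro p hp q hq hpq h
    by_cases h1 : p.1 = q.1
    · apply hpq
      ext
      · exact h1
      · rw [h1] at h
        linear_combination h
    · apply hl1
      refine ⟨(p, q), mem_product.2 ⟨hp, hq⟩, ?_⟩
      have h3 : p.1 - q.1 ≠ 0 := sub_ne_zero.2 h1
      show (p.2 - q.2) / (p.1 - q.1) = l
      rw [div_eq_iff h3]
      linear_combination h
  have hdiv : ∀ p ∈ T, n ∣ e p := by
    intro p hp
    have h1 := lines_mult T c hc e l hl3 p hp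
    rw [← he] at h1
    rw [← h1]
    obtain ⟨x, y⟩ := p
    obtain ⟨hy, hv⟩ := (hT x y).1 hp
    refine D_mult z hA l (y - l * x) x ?_ ?_ ?_
    · rw [gL_eval]
      rw [← hy]
      ring
    · unfold gL
      simp only [derivative_sub, derivative_add, derivative_mul, derivative_pow, derivative_X,
        derivative_C, eval_sub, eval_add, eval_mul, eval_pow, eval_X, eval_C, eval_one, eval_zero,
        eval_natCast]
      intro h3
      by_cases hy0 : y = 0
      · have h4 : 3 * x ^ 2 + a = 0 := by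
          subst hy0
          norm_num at h3
          linear_combination h3
        apply hD
        have h5 : a = -3 * x ^ 2 := by linear_combination h4
        have h6 : b = 2 * x ^ 3 := by
          rw [hy0, h5] at hy
          linear_combination -hy
        rw [h5, h6]
        ring
      · apply hl2
        refine ⟨(x, y), hp, ?_⟩
        show (3 * x ^ 2 + a) / (2 * y) = l
        rw [div_eq_iff (mul_ne_zero h2 hy0)]
        norm_num at h3
        linear_combination h3
    · intro x' hx' hne h0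
      rw [hFL] at h0
      have hq : (x', l * x' + (y - l * x)) ∈ T := (hT _ _).2 ⟨(gL_eval _ _ _ _ _).1 hx', h0⟩
      refine hl3 _ hq _ hp (fun h => hne (congrArg Prod.fst h)) ?_
      show l * x' + (y - l * x) - l * x' = y - l * x
      ring
  refine ⟨c, ∏ p ∈ T, sP p ^ (e p / n), hc, ?_⟩
  rw [he, ← prod_pow]
  congr 1
  refine prod_congr rfl fun p hp => ?_
  rw [← pow_mul, Nat.div_mul_cancel (hdiv p hp)]

end

end Pool.Agent.K9h5.G
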