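import Mathlib
import Pool.Agent.K9h5.T.Tns

/-!
# The multiples of the generic point are not constant
-/

set_option autoImplicit false
set_option linter.all false

namespace Pool.Agent.K9h5.G

open Polynomial Finset Pool.Agent.K9h5 Pool.Agent.K9h5.T Pool.Agent.H901R3.MS WeierstrassCurve

section

variable {K : Type} [Field K] [IsAlgClosed K] {a b : K}

theorem mult_ne [DecidableEq K] [DecidableEq (FE a b)] (hD : Disc a b)
    (red : Pt a b →+ Pt (kF a b a) (kF a b b))
    (hred : ∀ (x y : K) (h : (CV a b).toAffine.Nonsingular x y),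
        ∃ g : (CV (kF a b a) (kF a b b)).toAffine.Nonsingular (kF a b x) (kF a b y),
          red (Affine.Point.some x y h) = Affine.Point.some (kF a b x) (kF a b y) g)
    (hG : (CV (kF a b a) (kF a b b)).toAffine.Nonsingular (xF a b) (yF a b))
    (S : Pt a b) (hS : ∀ k : ℕ, 0 < k → k • S ≠ 0) (k : ℕ) (hk : 0 < k) (R : Pt a b) :
    k • (Affine.Point.some (xF a b) (yF a b) hG : Pt (kF a b a) (kF a b b)) ≠ red R := by
  intro h
  have hDF : Disc (kF a b a) (kF a b b) := disc_map (kF a b) hD
  obtain ⟨U, V, h1, h1', τ, hs, hU, hτ⟩ := transl hD red hred hG S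
  have hkk : ∀ u : K, (τ : FE a b →+* FE a b) (kF a b u) = kF a b u := by
    intro u
    show τ (algebraMap (QA K a b) (FE a b) (algebraMap K[X] (QA K a b) (C u))) = _
    rw [hτ, algebraMap_QA, evQ_apply]
    simp
  have hx : (τ : FE a b →+* FE a b) (xF a b) = U := by
    show τ (xF a b) = U
    unfold xF
    rw [hτ, evQ_apply]
    simp [qx]
  have hy : (τ : FE a b →+* FE a b) (yF a b) = V := by
    show τ (yF a b) = V
    unfold yF
    rw [hτ, evQ_apply]
    simp [qy]
  obtain ⟨red₂, hred₂⟩ := baseChange2 (τ : FE a b →+* FE a b) (kF a b a) (kF a b b) (kF a b a)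
    (kF a b b) (hkk a) (hkk b) hDF
  have hrr : ∀ w : Pt a b, red₂ (red w) = red w := by
    intro w
    cases w with
    | zero =>
      have h0 : red (Affine.Point.zero : Pt a b) = 0 := map_zero red
      rw [h0, map_zero]
    | some x y hxy =>
      obtain ⟨g, hg⟩ := hred x y hxy
      obtain ⟨g', hg'⟩ := hred₂ _ _ g
      rw [hg, hg']
      simp only [Affine.Point.some.injEq]
      exact ⟨hkk x, hkk y⟩
  have hPu : red₂ (Affine.Point.some (xF a b) (yF a b) hG) = Affine.Point.some U V h1 := by
    obtain ⟨g', hg'⟩ := hred₂ _ _ hG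
    rw [hg']
    simp only [Affine.Point.some.injEq]
    exact ⟨hx, hy⟩
  have h2 := congrArg red₂ h
  rw [map_nsmul, hPu, hrr, ← hs, nsmul_add, h, ← map_nsmul] at h2
  have h3 : red (k • S) = 0 := by
    have h4 := h2
    rwa [add_eq_left] at h4
  apply hS k hk
  cases hc : k • S with
  | zero => rfl
  | some x y hxy =>
    exfalso
    obtain ⟨g, hg⟩ := hred x y hxy
    rw [hc, hg] at h3
    cases h3

/-- **The multiples of the generic point.** -/
theorem mult_some [DecidableEq K] [DecidableEq (FE a b)] (hD : Disc a b)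
    (red : Pt a b →+ Pt (kF a b a) (kF a b b))
    (hred : ∀ (x y : K) (h : (CV a b).toAffine.Nonsingular x y),
        ∃ g : (CV (kF a b a) (kF a b b)).toAffine.Nonsingular (kF a b x) (kF a b y),
          red (Affine.Point.some x y h) = Affine.Point.some (kF a b x) (kF a b y) g)
    (hG : (CV (kF a b a) (kF a b b)).toAffine.Nonsingular (xF a b) (yF a b))
    (S : Pt a b) (hS : ∀ k : ℕ, 0 < k → k • S ≠ 0) (k : ℕ) (hk : 0 < k) :
    ∃ (U V : FE a b) (h : (CV (kF a b a) (kF a b b)).toAffine.Nonsingular U V),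
      k • (Affine.Point.some (xF a b) (yF a b) hG : Pt (kF a b a) (kF a b b)) =
        Affine.Point.some U V h ∧ ∀ u, U ≠ kF a b u := by
  have hne := mult_ne hD red hred hG S hS k hk
  cases hc : k • (Affine.Point.some (xF a b) (yF a b) hG : Pt (kF a b a) (kF a b b)) with
  | zero =>
    exfalso
    apply hne 0
    rw [map_zero, hc]
    rfl
  | some U V h =>
    refine ⟨U, V, h, rfl, ?_⟩
    intro u hu
    obtain ⟨w, hw⟩ := const_pt (kF a b) hD red hred u U V hu h
    apply hne w
    rw [hc, hw]

end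

end Pool.Agent.K9h5.G
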