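import Mathlib
import Pool.Agent.K9h5.G.Lines
import Pool.Agent.K9h5.G.Non

/-!
# The values at the multiples of the generic point
-/

set_option autoImplicit false
set_option linter.all false

namespace Pool.Agent.K9h5.G

open Polynomial Finset Pool.Agent.K9h5 Pool.Agent.K9h5.T Pool.Agent.H901R3.MS WeierstrassCurve

section

variable {K : Type} [Field K] {a b : K}

theorem FL_val {L : Type} [Field L] (κ : K →+* L) (z : QA K a b) (l v x : L) :
    (FL κ z l v).eval x = z.re.eval₂ κ x + z.im.eval₂ κ x * (l * x + v) := by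
  unfold FL
  simp only [eval_add, eval_mul, eval_map, eval_X, eval_C]

/-- **The values at a sum.** -/
theorem add_val {L : Type} [Field L] [DecidableEq L] (κ : K →+* L) (z : QA K a b) {n : ℕ} {c : K}
    {G : K[X][X]} (hG : Hu z = C (C c) * G ^ n) {c' : K} {q : K[X]}
    (hq : QuadraticAlgebra.norm z = C c' * q ^ n) {x₁ y₁ x₂ y₂ x₃ y₃ : L}
    (h₁ : (CV (κ a) (κ b)).toAffine.Nonsingular x₁ y₁)
    (h₂ : (CV (κ a) (κ b)).toAffine.Nonsingular x₂ y₂)
    (h₃ : (CV (κ a) (κ b)).toAffine.Nonsingular x₃ y₃)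
    (hs : (Affine.Point.some x₁ y₁ h₁ + Affine.Point.some x₂ y₂ h₂ : Pt (κ a) (κ b)) =
      Affine.Point.some x₃ y₃ h₃) :
    ∃ g : L, evQ κ a b x₃ y₃ (eqn_of h₃) z * (κ c * g ^ n) =
      κ c' * (q.eval₂ κ x₃) ^ n *
        (evQ κ a b x₁ y₁ (eqn_of h₁) z * evQ κ a b x₂ y₂ (eqn_of h₂) z) := by
  obtain ⟨W, hW⟩ : ∃ W : WeierstrassCurve.Affine L, W = (CV (κ a) (κ b)).toAffine := ⟨_, rfl⟩
  have hxy : ¬ (x₁ = x₂ ∧ y₁ = (CV (κ a) (κ b)).toAffine.negY x₂ y₂) := by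
    rintro ⟨e1, e2⟩
    have h0 := Affine.Point.add_of_Y_eq (h₁ := h₁) (h₂ := h₂) e1 e2
    rw [h0] at hs
    cases hs
  have h4 := Affine.Point.add_some hxy (h₁ := h₁) (h₂ := h₂)
  rw [h4] at hs
  simp only [Affine.Point.some.injEq] at hs
  obtain ⟨hx3, hy3⟩ := hs
  obtain ⟨l, hl⟩ : ∃ l, l = (CV (κ a) (κ b)).toAffine.slope x₁ x₂ y₁ y₂ := ⟨_, rfl⟩
  rw [← hl] at hx3 hy3
  have hp := Affine.addPolynomial_slope (W := (CV (κ a) (κ b)).toAffine) h₁.1 h₂.1 hxy
  rw [← hl, hx3, Affine.addPolynomial_eq] at hp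
  obtain ⟨v, hv⟩ : ∃ v, v = y₁ - l * x₁ := ⟨_, rfl⟩
  have hgL : gL (κ a) (κ b) l v = (X - C x₁) * ((X - C x₂) * (X - C x₃)) := by
    have h5 := neg_injective hp
    rw [← mul_assoc, ← h5]
    unfold gL Cubic.toPoly
    simp only [CV, hv, map_sub, map_add, map_mul, map_pow, map_neg, C_1, C_0, map_ofNat]
    ring
  have hy1 : y₁ = l * x₁ + v := by rw [hv]; ring
  have hy2 : y₂ = l * x₂ + v := by
    by_cases hx : x₁ = x₂
    · rcases Affine.Y_eq_of_X_eq h₁.1 h₂.1 hx with h5 | h5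
      · rw [← h5, ← hx]
        exact hy1
      · exact absurd ⟨hx, h5⟩ hxy
    · have h5 : l = (y₁ - y₂) / (x₁ - x₂) := by rw [hl, Affine.slope_of_X_ne hx]
      have h6 : x₁ - x₂ ≠ 0 := sub_ne_zero.2 hx
      rw [hv, h5]
      field_simp
      ring
  have hy3' : -y₃ = l * x₃ + v := by
    rw [← hy3]
    unfold Affine.addY Affine.negAddY Affine.negY
    rw [hx3, hv]
    simp only [CV]
    ring
  -- the product formula
  have h5 := HL_split κ z l v x₁ x₂ x₃ hgL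
  rw [FL_val, FL_val, FL_val, ← hy1, ← hy2, ← hy3', HL_univ, hG, eval₂_mul, eval₂_C, eval₂_pow] at h5
  have h6 : (eval₂RingHom κ l) (C c) = κ c := by simp
  rw [h6] at h5
  -- the norm
  have e3 : y₃ ^ 2 = x₃ ^ 3 + κ a * x₃ + κ b := eqn_of h₃
  have e3' : (-y₃) ^ 2 = x₃ ^ 3 + κ a * x₃ + κ b := by rw [neg_sq]; exact e3
  have h7 := evQ_norm κ a b x₃ y₃ e3 e3' z
  rw [hq, eval₂_mul, eval₂_C, eval₂_pow, evQ_apply, evQ_apply] at h7
  refine ⟨G.eval₂ (eval₂RingHom κ l) v, ?_⟩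
  have v1 : evQ κ a b x₁ y₁ (eqn_of h₁) z = z.re.eval₂ κ x₁ + z.im.eval₂ κ x₁ * y₁ := rfl
  have v2 : evQ κ a b x₂ y₂ (eqn_of h₂) z = z.re.eval₂ κ x₂ + z.im.eval₂ κ x₂ * y₂ := rfl
  have v3 : evQ κ a b x₃ y₃ (eqn_of h₃) z = z.re.eval₂ κ x₃ + z.im.eval₂ κ x₃ * y₃ := rfl
  rw [v1, v2, v3, h5, h7]
  ring

end

section

variable {K : Type} [Field K] [IsAlgClosed K] {a b : K}

/-- **A function with orders divisible by `n` is a power at a nonconstant point.** -/
theorem power_at (hD : Disc a b) {n : ℕ} (hn : 1 ≤ n) (z : QA K a b) (hz : z ≠ 0)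
    (hA : ArcDiv n a b z) [DecidableEq K] (S : Pt a b) (hS : ∀ k : ℕ, 0 < k → k • S ≠ 0) :
    ∃ (U V : FE a b) (h : V ^ 2 = U ^ 3 + kF a b a * U + kF a b b), (∀ u, U ≠ kF a b u) ∧
      ∃ w : FE a b, evQ (kF a b) a b U V h z = w ^ n := by
  classical
  have hDF : Disc (kF a b a) (kF a b b) := disc_map (kF a b) hD
  obtain ⟨red, hred⟩ := baseChange (kF a b) a b hDF
  have hG0 : (CV (kF a b a) (kF a b b)).toAffine.Nonsingular (xF a b) (yF a b) :=
    (nonsingular_iff hDF).2 (eqn_F a b)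
  have hms := mult_some hD red hred hG0 S hS
  obtain ⟨c, G, hc, hHu⟩ := Hu_pow hD z hz hA
  obtain ⟨c', q, hc', hq⟩ := pow_of_mult _ (norm_ne_zero hz) n
    (norm_mult hD z (norm_ne_zero hz) hA)
  obtain ⟨e, he⟩ := IsAlgClosed.exists_pow_nat_eq (c' / c) (n := n) (by omega)
  have hval : ∀ (U V : FE a b) (h : V ^ 2 = U ^ 3 + kF a b a * U + kF a b b),
      (∀ u, U ≠ kF a b u) → evQ (kF a b) a b U V h z ≠ 0 := by
    intro U V h hU h0
    apply hz
    apply inj_ev (kF a b) U V h hU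
    rw [h0, map_zero]
  have key : ∀ k : ℕ, ∀ (U V : FE a b) (h : (CV (kF a b a) (kF a b b)).toAffine.Nonsingular U V),
      (k + 1) • (Affine.Point.some (xF a b) (yF a b) hG0 : Pt (kF a b a) (kF a b b)) =
        Affine.Point.some U V h →
      ∃ w : FE a b, evQ (kF a b) a b U V (eqn_of h) z =
        (evQ (kF a b) a b (xF a b) (yF a b) (eqn_F a b) z) ^ (k + 1) * w ^ n := by
    intro k
    induction k with
    | zero =>
      intro U V h hk
      rw [zero_add, one_nsmul] at hk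
      simp only [Affine.Point.some.injEq] at hk
      obtain ⟨rfl, rfl⟩ := hk
      exact ⟨1, by rw [zero_add, pow_one, one_pow, mul_one]⟩
    | succ k ih =>
      intro U V h hk
      obtain ⟨U₁, V₁, h₁, hk₁, hU₁⟩ := hms (k + 1) (by omega)
      obtain ⟨w, hw⟩ := ih U₁ V₁ h₁ hk₁
      rw [succ_nsmul, hk₁] at hk
      have hUn : ∀ u, U ≠ kF a b u := by
        obtain ⟨U₂, V₂, h₂, hk₂, hU₂⟩ := hms (k + 1 + 1) (by omega)
        rw [succ_nsmul, hk₁, hk] at hk₂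
        simp only [Affine.Point.some.injEq] at hk₂
        rw [hk₂.1]
        exact hU₂
      obtain ⟨g, hg⟩ := add_val (kF a b) z hHu hq h₁ hG0 h hk
      have hqx : q.eval₂ (kF a b) U ≠ 0 := by
        intro h0
        have h5 := eval_ne (kF a b) _ (norm_ne_zero hz) U hUn
        rw [hq, eval₂_mul, eval₂_pow, h0, zero_pow (by omega), mul_zero] at h5
        exact h5 rfl
      have hc0 : kF a b c ≠ 0 := fun h0 => hc ((kF a b).injective (by rw [h0, map_zero]))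
      have hc0' : kF a b c' ≠ 0 := fun h0 => hc' ((kF a b).injective (by rw [h0, map_zero]))
      have hv1 := hval U₁ V₁ (eqn_of h₁) hU₁
      have hv0 := hval (xF a b) (yF a b) (eqn_F a b) (xF_nonconst a b)
      have hg0 : g ≠ 0 := by
        rintro rfl
        rw [zero_pow (by omega), mul_zero, mul_zero] at hg
        exact mul_ne_zero (mul_ne_zero hc0' (pow_ne_zero _ hqx)) (mul_ne_zero hv1 hv0) hg.symm
      have hek : (kF a b e) ^ n * kF a b c = kF a b c' := by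
        rw [← map_pow, he, ← map_mul, div_mul_cancel₀ _ hc]
      refine ⟨w * (kF a b e * q.eval₂ (kF a b) U / g), ?_⟩
      have hgn : kF a b c * g ^ n ≠ 0 := mul_ne_zero hc0 (pow_ne_zero _ hg0)
      apply mul_right_cancel₀ hgn
      rw [hg, hw, ← hek, mul_pow, div_pow, mul_pow]
      have hgn' : g ^ n ≠ 0 := pow_ne_zero _ hg0
      field_simp
      ring
  obtain ⟨U, V, h, hk, hU⟩ := hms n (by omega)
  obtain ⟨m, rfl⟩ : ∃ m, n = m + 1 := ⟨n - 1, by omega⟩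
  obtain ⟨w, hw⟩ := key m U V h hk
  refine ⟨U, V, eqn_of h, hU, evQ (kF a b) a b (xF a b) (yF a b) (eqn_F a b) z * w, ?_⟩
  rw [hw, mul_pow]

end

end Pool.Agent.K9h5.G
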