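import Mathlib
import Pool.Agent.K9h5.G.Des
import Pool.Agent.K9h5.N.Grow

/-!
# Hypersurfaces without elliptic curves are ramified
-/

set_option autoImplicit false
set_option linter.all false

namespace Pool.Agent.K9h5.G

open Polynomial Finset Pool.Agent.K9h5 Pool.Agent.K9h5.T Pool.Agent.H901R3.MS WeierstrassCurve

section

/-- a point of infinite order over `ℂ` -/
theorem exists_inf (a b : ℤ) (hD : Disc (a : ℚ) (b : ℚ)) [DecidableEq ℂ] :
    ∃ S : Pt (a : ℂ) (b : ℂ), ∀ k : ℕ, 0 < k → k • S ≠ 0 := by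
  classical
  obtain ⟨L, iL, jL, hL⟩ := Pool.Agent.K9h5.N.exists_rank (fun _ : Fin 1 => a) (fun _ => b)
    (fun _ => hD) 1
  have h1 := hL 0
  rw [← Pool.Agent.K9h5.N.rkE_eq L] at h1
  haveI : Module.Finite ℤ (Pt (a : L) (b : L)) :=
    Module.Finite.iff_addGroup_fg.mpr (t_M1K L _ _
      (Pool.Agent.K9h5.N.disc_int a b hD))
  obtain ⟨P, hP⟩ : ∃ P : Pt (a : L) (b : L), ∀ k : ℕ, 0 < k → k • P ≠ 0 := by
    by_contra hc
    push Not at hc
    have h2 : Module.finrank ℤ (Pt (a : L) (b : L)) = 0 := by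
      rw [Module.finrank_eq_zero_iff]
      intro x
      obtain ⟨k, hk, hkx⟩ := hc x
      refine ⟨(k : ℤ), by exact_mod_cast hk.ne', ?_⟩
      rw [natCast_zsmul]
      exact hkx
    omega
  obtain ⟨ι⟩ : Nonempty (L →+* ℂ) := inferInstance
  obtain ⟨φ, hφ, _⟩ := Pool.Agent.K9h5.N.bcInt ι a b (Pool.Agent.K9h5.N.disc_int a b hD)
  refine ⟨φ P, fun k hk h => hP k hk (hφ ?_)⟩
  rw [map_nsmul, h, map_zero]

theorem squarefree_dvd {n m : ℕ} (hsq : Squarefree n) (h : ∀ l : ℕ, l.Prime → l ∣ n → l ∣ m) :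
    n ∣ m := by
  rw [← Nat.prod_primeFactors_of_squarefree hsq]
  apply Finset.prod_primes_dvd
  · intro p hp
    exact (Nat.prime_of_mem_primeFactors hp).prime
  · intro p hp
    exact h p (Nat.prime_of_mem_primeFactors hp) (Nat.dvd_of_mem_primeFactors hp)

theorem eqn_triple {S : Type} [CommRing S] {a b a' b' x y : S} (h : y ^ 2 = x ^ 3 + a * x + b)
    (ha : a = a') (hb : b = b') :
    (![x, y, 1] : Fin 3 → S) 1 ^ 2 * (![x, y, 1] : Fin 3 → S) 2 =
      (![x, y, 1] : Fin 3 → S) 0 ^ 3 + a' * (![x, y, 1] : Fin 3 → S) 0 *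
        (![x, y, 1] : Fin 3 → S) 2 ^ 2 + b' * (![x, y, 1] : Fin 3 → S) 2 ^ 3 := by
  subst ha hb
  show y ^ 2 * 1 = x ^ 3 + a * x * 1 ^ 2 + b * 1 ^ 3
  rw [h]
  ring

end

section

variable {K : Type} [Field K]

/-- no nonconstant maps from elliptic curves -/
def NoEll {r : ℕ} (n : ℕ) (a b : Fin r → K) (G : Fin 2 → MvPolynomial (Fin r × Fin 3) K) : Prop :=
  ∀ (s t : K), 4 * s ^ 3 + 27 * t ^ 2 ≠ 0 → ∀ (F : Type) [Field F] [Algebra K F] (x y : F),
    y ^ 2 = x ^ 3 + algebraMap K F s * x + algebraMap K F t → Transcendental K x →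
    IntermediateField.adjoin K {x, y} = ⊤ →
    ∀ (V : Fin r → Fin 3 → F) (w v : F),
      (∀ i, V i ≠ 0 ∧ V i 1 ^ 2 * V i 2 =
        V i 0 ^ 3 + algebraMap K F (a i) * V i 0 * V i 2 ^ 2 + algebraMap K F (b i) * V i 2 ^ 3) →
      (w ≠ 0 ∨ v ≠ 0) →
      MvPolynomial.aeval (fun u : Fin r × Fin 3 => V u.1 u.2) (G 0) * w ^ n +
        MvPolynomial.aeval (fun u : Fin r × Fin 3 => V u.1 u.2) (G 1) * v ^ n = 0 →
      ∀ i, ∃ (g : F) (γ : Fin 3 → K), ∀ k, V i k = g * algebraMap K F (γ k)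

/-- the tuple of coordinates -/
noncomputable def tup {r : ℕ} {S : Type} [CommRing S] (κ : K →+* S) (V : Fin r → Fin 3 → K)
    (j : Fin r) (U : Fin 3 → S) (v : Fin r × Fin 3) : S :=
  if v.1 = j then U v.2 else κ (V v.1 v.2)

theorem tup_map {r : ℕ} {S T : Type} [CommRing S] [CommRing T] (κ : K →+* S) (ψ : S →+* T)
    (V : Fin r → Fin 3 → K) (j : Fin r) (U : Fin 3 → S) (v : Fin r × Fin 3) :
    ψ (tup κ V j U v) = tup (ψ.comp κ) V j (fun k => ψ (U k)) v := by
  unfold tup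
  split_ifs
  · rfl
  · rfl

theorem tup_self {r : ℕ} {S : Type} [CommRing S] (κ : K →+* S) (V : Fin r → Fin 3 → K)
    (j : Fin r) (U : Fin 3 → S) (k : Fin 3) : tup κ V j U (j, k) = U k := by
  simp only [tup, if_true]

theorem tup_ne {r : ℕ} {S : Type} [CommRing S] (κ : K →+* S) (V : Fin r → Fin 3 → K)
    (j : Fin r) (U : Fin 3 → S) (i : Fin r) (hi : i ≠ j) (k : Fin 3) :
    tup κ V j U (i, k) = κ (V i k) := by
  simp only [tup, if_neg hi]

/-- the restriction of the coefficient to a curve -/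
noncomputable def res {r : ℕ} (a b : K) (V : Fin r → Fin 3 → K) (j : Fin r)
    (Φ : MvPolynomial (Fin r × Fin 3) K) : QA K a b :=
  MvPolynomial.eval₂ (qc K a b) (tup (qc K a b) V j ![qx K a b, qy K a b, 1]) Φ

theorem evQ_res {r : ℕ} {S : Type} [CommRing S] (κ : K →+* S) (a b : K) (V : Fin r → Fin 3 → K)
    (j : Fin r) (Φ : MvPolynomial (Fin r × Fin 3) K) (x y : S) (h : y ^ 2 = x ^ 3 + κ a * x + κ b) :
    evQ κ a b x y h (res a b V j Φ) = MvPolynomial.eval₂ κ (tup κ V j ![x, y, 1]) Φ := by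
  unfold res
  rw [MvPolynomial.hom_eval₂]
  have hx : evQ κ a b x y h (qx K a b) = x := by
    rw [evQ_apply]; simp [qx]
  have hy : evQ κ a b x y h (qy K a b) = y := by
    rw [evQ_apply]; simp [qy]
  have hc : (evQ κ a b x y h).comp (qc K a b) = κ := by
    ext c
    rw [RingHom.comp_apply, evQ_apply, qc_apply]
    simp
  rw [hc]
  congr 1
  funext v
  rw [tup_map, hc]
  congr 1
  funext k
  fin_cases k
  · exact hx
  · exact hy
  · exact map_one _

end

section

variable {K : Type} [Field K] [IsAlgClosed K] (a b : K)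

theorem trans_xF : letI := (kF a b).toAlgebra
    Transcendental K (xF a b) := by
  letI := (kF a b).toAlgebra
  rintro ⟨p, hp, h⟩
  exact eval_ne (kF a b) p hp (xF a b) (xF_nonconst a b) h

theorem adj_top : letI := (kF a b).toAlgebra
    IntermediateField.adjoin K {xF a b, yF a b} = ⊤ := by
  letI := (kF a b).toAlgebra
  rw [eq_top_iff]
  intro z _
  obtain ⟨A, hA⟩ : ∃ A, A = IntermediateField.adjoin K {xF a b, yF a b} := ⟨_, rfl⟩
  rw [← hA]
  have hx : xF a b ∈ A := by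
    rw [hA]
    exact IntermediateField.subset_adjoin _ _ (Set.mem_insert _ _)
  have hy : yF a b ∈ A := by
    rw [hA]
    exact IntermediateField.subset_adjoin _ _ (Set.mem_insert_of_mem _ (Set.mem_singleton _))
  have hp : ∀ p : K[X], p.eval₂ (kF a b) (xF a b) ∈ A := by
    intro p
    rw [Polynomial.eval₂_eq_sum_range]
    exact sum_mem fun i _ => mul_mem (A.algebraMap_mem _) (pow_mem hx _)
  have hq : ∀ q : QA K a b, algebraMap (QA K a b) (FE a b) q ∈ A := by
    intro q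
    rw [algF_eq, evQ_apply]
    exact add_mem (hp _) (mul_mem (hp _) hy)
  obtain ⟨p, q, _, rfl⟩ := IsFractionRing.div_surjective (A := QA K a b) z
  exact div_mem (hq p) (hq q)

end

section

variable {K : Type} [Field K] [IsAlgClosed K]

/-- without elliptic curves there is no point with nonconstant `j`-th coordinate -/
theorem no_point {r n : ℕ} (a b : Fin r → K) (G : Fin 2 → MvPolynomial (Fin r × Fin 3) K)
    (hG : NoEll n a b G) (j : Fin r) (hDj : 4 * a j ^ 3 + 27 * b j ^ 2 ≠ 0)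
    (V : Fin r → Fin 3 → K) (hV0 : ∀ i, V i ≠ 0)
    (hV : ∀ i, V i 2 = 1 ∧ V i 1 ^ 2 = V i 0 ^ 3 + a i * V i 0 + b i)
    (x y : FE (a j) (b j)) (hxy : y ^ 2 = x ^ 3 + kF (a j) (b j) (a j) * x + kF (a j) (b j) (b j))
    (hx : ∀ u, x ≠ kF (a j) (b j) u) (w v : FE (a j) (b j)) (hwv : w ≠ 0 ∨ v ≠ 0) :
      MvPolynomial.eval₂ (kF (a j) (b j)) (tup (kF (a j) (b j)) V j ![x, y, 1]) (G 0) * w ^ n +
      MvPolynomial.eval₂ (kF (a j) (b j)) (tup (kF (a j) (b j)) V j ![x, y, 1]) (G 1) * v ^ n ≠ 0 := by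
  intro h0
  letI : Algebra K (FE (a j) (b j)) := (kF (a j) (b j)).toAlgebra
  have h1 := hG (a j) (b j) hDj (FE (a j) (b j)) (xF (a j) (b j))
    (yF (a j) (b j)) (eqn_F (a j) (b j)) (trans_xF (a j) (b j)) (adj_top (a j) (b j))
    (fun i k => tup (kF (a j) (b j)) V j ![x, y, 1] (i, k)) w v ?_ hwv h0 j
  · obtain ⟨g, γ, hg⟩ := h1
    have e0 := hg 0
    have e2 := hg 2
    rw [tup_self] at e0 e2
    have e0' : x = g * kF (a j) (b j) (γ 0) := e0
    have e2' : 1 = g * kF (a j) (b j) (γ 2) := e2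
    apply hx (γ 0 / γ 2)
    have hγ : kF (a j) (b j) (γ 2) ≠ 0 := by
      intro h
      rw [h, mul_zero] at e2'
      exact one_ne_zero e2'
    rw [map_div₀, eq_div_iff hγ, e0']
    linear_combination (-kF (a j) (b j) (γ 0)) * e2'
  · intro i
    by_cases hi : i = j
    · subst hi
      constructor
      · intro h
        have h2 := congrFun h 2
        rw [tup_self] at h2
        exact one_ne_zero h2
      · simp only [tup_self]
        exact eqn_triple hxy rfl rfl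
    · constructor
      · intro h
        apply hV0 i
        funext k
        have h2 := congrFun h k
        rw [tup_ne _ _ _ _ _ hi] at h2
        exact (map_eq_zero _).1 h2
      · simp only [tup_ne _ _ _ _ _ hi]
        have h2 := hV i
        have h3 : V i 1 ^ 2 * V i 2 = V i 0 ^ 3 + a i * V i 0 * V i 2 ^ 2 + b i * V i 2 ^ 3 := by
          rw [h2.1, h2.2]
          ring
        have h4 := congrArg (kF (a j) (b j)) h3
        simp only [map_mul, map_add, map_pow] at h4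
        exact h4

/-- **Hypersurfaces without elliptic curves are ramified in all directions.** -/
theorem ram_gen {r n : ℕ} (hn : 1 ≤ n) (hsq : Squarefree n) (a b : Fin r → K)
    (G : Fin 2 → MvPolynomial (Fin r × Fin 3) K) (hG : NoEll n a b G) (j : Fin r)
    (hDj : Disc (a j) (b j)) [DecidableEq K] (S : Pt (a j) (b j))
    (hS : ∀ k : ℕ, 0 < k → k • S ≠ 0) :
    ∃ (V : Fin r → Fin 3 → K) (X' Y' : PowerSeries K) (m l : ℕ),
    (∀ i, V i 2 = 1 ∧ V i 1 ^ 2 = V i 0 ^ 3 + a i * V i 0 + b i) ∧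
    Y' ^ 2 = X' ^ 3 + PowerSeries.C (a j) * X' + PowerSeries.C (b j) ∧
    (MvPolynomial.eval₂ PowerSeries.C (tup PowerSeries.C V j ![X', Y', 1])
      (G 1 * G 0 ^ (n - 1))).order = m ∧ l.Prime ∧ l ∣ n ∧ ¬ l ∣ m := by
  classical
  -- the points on the other factors
  obtain ⟨V, hV0, hV⟩ : ∃ V : Fin r → Fin 3 → K, (∀ i, V i ≠ 0) ∧
      ∀ i, V i 2 = 1 ∧ V i 1 ^ 2 = V i 0 ^ 3 + a i * V i 0 + b i := by
    choose s hs using fun i : Fin r => IsAlgClosed.exists_pow_nat_eq (b i) (n := 2) (by norm_num)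
    refine ⟨fun i => ![0, s i, 1], fun i h => ?_, fun i => ⟨rfl, ?_⟩⟩
    · have h1 := congrFun h 2
      exact one_ne_zero h1
    · show s i ^ 2 = (0 : K) ^ 3 + a i * 0 + b i
      rw [hs i]
      ring
  have hno := no_point a b G hG j (right_ne_zero_of_mul hDj) V hV0 hV
  -- the coefficients
  obtain ⟨f, hf⟩ : ∃ f : Fin 2 → QA K (a j) (b j), f = fun k => res (a j) (b j) V j (G k) :=
    ⟨_, rfl⟩
  have hval : ∀ (x y : FE (a j) (b j))
      (h : y ^ 2 = x ^ 3 + kF (a j) (b j) (a j) * x + kF (a j) (b j) (b j))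
      (k : Fin 2), MvPolynomial.eval₂ (kF (a j) (b j))
        (tup (kF (a j) (b j)) V j ![x, y, 1]) (G k) =
        evQ (kF (a j) (b j)) (a j) (b j) x y h (f k) := by
    intro x y h k
    rw [hf]
    exact (evQ_res (kF (a j) (b j)) (a j) (b j) V j (G k) x y h).symm
  have hgen := hno _ _ (eqn_F (a j) (b j)) (xF_nonconst (a j) (b j))
  have hf0 : f 0 ≠ 0 := by
    intro h0
    apply hgen 1 0 (Or.inl one_ne_zero)
    rw [hval _ _ (eqn_F (a j) (b j)) 0, h0, map_zero, zero_mul, zero_pow (by omega), mul_zero,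
      add_zero]
  have hf1 : f 1 ≠ 0 := by
    intro h0
    apply hgen 0 1 (Or.inr one_ne_zero)
    rw [hval _ _ (eqn_F (a j) (b j)) 1, h0, map_zero, zero_mul, zero_pow (by omega), mul_zero,
      add_zero]
  obtain ⟨z, hz⟩ : ∃ z, z = f 1 * f 0 ^ (n - 1) := ⟨_, rfl⟩
  have hz0 : z ≠ 0 := by
    rw [hz]
    exact mul_ne_zero hf1 (pow_ne_zero _ hf0)
  -- a function whose orders are not all divisible by `n`
  have hnA : ¬ ArcDiv n (a j) (b j) z := by
    intro hA
    obtain ⟨U, Y, h, hU, w₀, hw⟩ := power_at hDj hn z hz0 hA S hS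
    obtain ⟨ζ, hζ⟩ := IsAlgClosed.exists_pow_nat_eq (-1 : K) (n := n) (by omega)
    apply hno U Y h hU (kF (a j) (b j) ζ * w₀)
      (evQ (kF (a j) (b j)) (a j) (b j) U Y h (f 0))
    · right
      intro h0
      apply hf0
      apply inj_ev (kF (a j) (b j)) U Y h hU
      rw [h0, map_zero]
    · rw [hval U Y h 0, hval U Y h 1, mul_pow, ← map_pow, hζ, ← hw, hz, map_mul, map_pow, map_neg,
        map_one]
      obtain ⟨m, rfl⟩ : ∃ m, n = m + 1 := ⟨n - 1, by omega⟩
      rw [Nat.add_sub_cancel]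
      ring
  unfold ArcDiv at hnA
  push Not at hnA
  obtain ⟨X', Y', h, m, hm, hnm⟩ := hnA
  obtain ⟨l, hl, hln, hlm⟩ : ∃ l : ℕ, l.Prime ∧ l ∣ n ∧ ¬ l ∣ m := by
    by_contra hc
    push Not at hc
    exact hnm (squarefree_dvd hsq hc)
  refine ⟨V, X', Y', m, l, hV, h, ?_, hl, hln, hlm⟩
  rw [← hm, hz, hf, map_mul, map_pow, MvPolynomial.eval₂_mul, MvPolynomial.eval₂_pow, evQ_res,
    evQ_res]

end

end Pool.Agent.K9h5.G
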