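import Mathlib
import Pool.Agent.K9h5.G.Top

/-!
# Hypersurfaces which are not covered by elliptic curves are ramified
-/

set_option autoImplicit false
set_option linter.all false

namespace Pool.Agent.K9h5.G

open Polynomial Finset Pool.Agent.K9h5 Pool.Agent.K9h5.T Pool.Agent.H901R3.MS WeierstrassCurve

section

variable {K : Type} [Field K]

/-- no nonconstant maps from elliptic curves to the fibre over `V` -/
def NoEllAt {r : ℕ} (n : ℕ) (a b : Fin r → K) (G : Fin 2 → MvPolynomial (Fin r × Fin 3) K)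
    (j : Fin r) (V : Fin r → Fin 3 → K) : Prop :=
  ∀ (s t : K), 4 * s ^ 3 + 27 * t ^ 2 ≠ 0 → ∀ (F : Type) [Field F] [Algebra K F] (x y : F),
    y ^ 2 = x ^ 3 + algebraMap K F s * x + algebraMap K F t → Transcendental K x →
    IntermediateField.adjoin K {x, y} = ⊤ →
    ∀ (U : Fin 3 → F) (w v : F), U ≠ 0 → U 1 ^ 2 * U 2 =
        U 0 ^ 3 + algebraMap K F (a j) * U 0 * U 2 ^ 2 + algebraMap K F (b j) * U 2 ^ 3 →
      (w ≠ 0 ∨ v ≠ 0) →
      MvPolynomial.aeval (tup (algebraMap K F) V j U) (G 0) * w ^ n +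
        MvPolynomial.aeval (tup (algebraMap K F) V j U) (G 1) * v ^ n = 0 →
      ∃ (g : F) (γ : Fin 3 → K), ∀ k, U k = g * algebraMap K F (γ k)

end

section

variable {K : Type} [Field K] [IsAlgClosed K]

theorem no_point_at {r n : ℕ} (a b : Fin r → K) (G : Fin 2 → MvPolynomial (Fin r × Fin 3) K)
    (j : Fin r) (hDj : 4 * a j ^ 3 + 27 * b j ^ 2 ≠ 0) (V : Fin r → Fin 3 → K)
    (hG : NoEllAt n a b G j V)
    (x y : FE (a j) (b j)) (hxy : y ^ 2 = x ^ 3 + kF (a j) (b j) (a j) * x + kF (a j) (b j) (b j))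
    (hx : ∀ u, x ≠ kF (a j) (b j) u) (w v : FE (a j) (b j)) (hwv : w ≠ 0 ∨ v ≠ 0) :
      MvPolynomial.eval₂ (kF (a j) (b j)) (tup (kF (a j) (b j)) V j ![x, y, 1]) (G 0) * w ^ n +
      MvPolynomial.eval₂ (kF (a j) (b j)) (tup (kF (a j) (b j)) V j ![x, y, 1]) (G 1) * v ^ n ≠ 0 := by
  intro h0
  letI : Algebra K (FE (a j) (b j)) := (kF (a j) (b j)).toAlgebra
  obtain ⟨g, γ, hg⟩ := hG (a j) (b j) hDj (FE (a j) (b j)) (xF (a j) (b j))
    (yF (a j) (b j)) (eqn_F (a j) (b j)) (trans_xF (a j) (b j)) (adj_top (a j) (b j))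
    ![x, y, 1] w v (fun h => one_ne_zero (congrFun h 2)) (eqn_triple hxy rfl rfl) hwv h0
  have e0' : x = g * kF (a j) (b j) (γ 0) := hg 0
  have e2' : 1 = g * kF (a j) (b j) (γ 2) := hg 2
  apply hx (γ 0 / γ 2)
  have hγ : kF (a j) (b j) (γ 2) ≠ 0 := by
    intro h
    rw [h, mul_zero] at e2'
    exact one_ne_zero e2'
  rw [map_div₀, eq_div_iff hγ, e0']
  linear_combination (-kF (a j) (b j) (γ 0)) * e2'

/-- **Fibres without elliptic curves are ramified.** -/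
theorem ram_at {r n : ℕ} (hn : 1 ≤ n) (hsq : Squarefree n) (a b : Fin r → K)
    (G : Fin 2 → MvPolynomial (Fin r × Fin 3) K) (j : Fin r) (V : Fin r → Fin 3 → K)
    (hG : NoEllAt n a b G j V) (hDj : Disc (a j) (b j)) [DecidableEq K] (S : Pt (a j) (b j))
    (hS : ∀ k : ℕ, 0 < k → k • S ≠ 0) :
    ∃ (X' Y' : PowerSeries K) (m l : ℕ),
    Y' ^ 2 = X' ^ 3 + PowerSeries.C (a j) * X' + PowerSeries.C (b j) ∧
    (MvPolynomial.eval₂ PowerSeries.C (tup PowerSeries.C V j ![X', Y', 1])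
      (G 1 * G 0 ^ (n - 1))).order = m ∧ l.Prime ∧ l ∣ n ∧ ¬ l ∣ m := by
  classical
  have hno := no_point_at a b G j (right_ne_zero_of_mul hDj) V hG
  -- the coefficients
  obtain ⟨f, hf⟩ : ∃ f : Fin 2 → QA K (a j) (b j), f = fun k => res (a j) (b j) V j (G k) :=
    ⟨_, rfl⟩
  have hval : ∀ (x y : FE (a j) (b j))
      (h : y ^ 2 = x ^ 3 + kF (a j) (b j) (a j) * x + kF (a j) (b j) (b j))
      (k : Fin 2), MvPolynomial.eval₂ (kF (a j) (b j))
        (tup (kF (a j) (b j)) V j ![x, y, 1]) (G k) =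
        evQ (kF (a j) (b j)) (a j) (b j) x y h (f k) := by
    intro x y h k
    rw [hf]
    exact (evQ_res (kF (a j) (b j)) (a j) (b j) V j (G k) x y h).symm
  have hgen := hno _ _ (eqn_F (a j) (b j)) (xF_nonconst (a j) (b j))
  have hf0 : f 0 ≠ 0 := by
    intro h0
    apply hgen 1 0 (Or.inl one_ne_zero)
    rw [hval _ _ (eqn_F (a j) (b j)) 0, h0, map_zero, zero_mul, zero_pow (by omega), mul_zero,
      add_zero]
  have hf1 : f 1 ≠ 0 := by
    intro h0
    apply hgen 0 1 (Or.inr one_ne_zero)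
    rw [hval _ _ (eqn_F (a j) (b j)) 1, h0, map_zero, zero_mul, zero_pow (by omega), mul_zero,
      add_zero]
  obtain ⟨z, hz⟩ : ∃ z, z = f 1 * f 0 ^ (n - 1) := ⟨_, rfl⟩
  have hz0 : z ≠ 0 := by
    rw [hz]
    exact mul_ne_zero hf1 (pow_ne_zero _ hf0)
  -- a function whose orders are not all divisible by `n`
  have hnA : ¬ ArcDiv n (a j) (b j) z := by
    intro hA
    obtain ⟨U, Y, h, hU, w₀, hw⟩ := power_at hDj hn z hz0 hA S hS
    obtain ⟨ζ, hζ⟩ := IsAlgClosed.exists_pow_nat_eq (-1 : K) (n := n) (by omega)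
    apply hno U Y h hU (kF (a j) (b j) ζ * w₀)
      (evQ (kF (a j) (b j)) (a j) (b j) U Y h (f 0))
    · right
      intro h0
      apply hf0
      apply inj_ev (kF (a j) (b j)) U Y h hU
      rw [h0, map_zero]
    · rw [hval U Y h 0, hval U Y h 1, mul_pow, ← map_pow, hζ, ← hw, hz, map_mul, map_pow, map_neg,
        map_one]
      obtain ⟨m, rfl⟩ : ∃ m, n = m + 1 := ⟨n - 1, by omega⟩
      rw [Nat.add_sub_cancel]
      ring
  unfold ArcDiv at hnA
  push Not at hnA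
  obtain ⟨X', Y', h, m, hm, hnm⟩ := hnA
  obtain ⟨l, hl, hln, hlm⟩ : ∃ l : ℕ, l.Prime ∧ l ∣ n ∧ ¬ l ∣ m := by
    by_contra hc
    push Not at hc
    exact hnm (squarefree_dvd hsq hc)
  refine ⟨X', Y', m, l, h, ?_, hl, hln, hlm⟩
  rw [← hm, hz, hf, map_mul, map_pow, MvPolynomial.eval₂_mul, MvPolynomial.eval₂_pow, evQ_res,
    evQ_res]

end

end Pool.Agent.K9h5.G
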